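import Pool.Agent.PFC.StmtsB5a

/-!
# Squad PFC, block B5a, row CASa (helper53)
-/

open scoped BigOperators TensorProduct

noncomputable section

namespace Pool.Agent.PFC.B5a.H53

variable {F Γ B : Type} [Field F] [Group Γ] [Fintype Γ] [Ring B] [Algebra F B]

theorem Ee_add (γ : Γ →* B) (lam : B →ₗ[F] F) (x y : B) :
    Ee F γ lam (x + y) = Ee F γ lam x + Ee F γ lam y := by
  unfold Ee
  rw [← Finset.sum_add_distrib]
  refine Finset.sum_congr rfl fun g _ => ?_
  rw [mul_add, map_add, add_smul]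

theorem Ee_left (γ : Γ →* B) (lam : B →ₗ[F] F) (k : Γ) (x : B) :
    Ee F γ lam (γ k * x) = γ k * Ee F γ lam x := by
  unfold Ee
  rw [Finset.mul_sum]
  refine (Fintype.sum_equiv (Equiv.mulLeft k) _ _ fun g => ?_).symm
  have h1 : γ (k * g)⁻¹ * (γ k * x) = γ g⁻¹ * x := by
    rw [← mul_assoc, ← map_mul, mul_inv_rev, inv_mul_cancel_right]
  rw [Equiv.coe_mulLeft, mul_smul_comm, h1, map_mul γ k g]

theorem Ee_right (γ : Γ →* B) (lam : B →ₗ[F] F) (hs : ∀ a b, lam (a * b) = lam (b * a)) (k : Γ)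
    (x : B) : Ee F γ lam (x * γ k) = Ee F γ lam x * γ k := by
  unfold Ee
  rw [Finset.sum_mul]
  refine (Fintype.sum_equiv (Equiv.mulRight k) _ _ fun g => ?_).symm
  have h1 : lam (γ (g * k)⁻¹ * (x * γ k)) = lam (γ g⁻¹ * x) := by
    rw [← mul_assoc, hs _ (γ k), ← mul_assoc, ← map_mul, mul_inv_rev, mul_inv_cancel_left]
  rw [Equiv.coe_mulRight, smul_mul_assoc, h1, map_mul γ g k]

theorem Ee_com (γ : Γ →* B) (lam : B →ₗ[F] F) (c : B) (hc : ∀ g, c * γ g = γ g * c) (x : B) :
    c * Ee F γ lam x = Ee F γ lam x * c := by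
  unfold Ee
  rw [Finset.mul_sum, Finset.sum_mul]
  refine Finset.sum_congr rfl fun g _ => ?_
  rw [mul_smul_comm, smul_mul_assoc, hc g]

theorem lam_Ee (γ : Γ →* B) (lam : B →ₗ[F] F) (hs : ∀ a b, lam (a * b) = lam (b * a)) (z y : B) :
    lam (z * Ee F γ lam y) = lam (Ee F γ lam z * y) := by
  unfold Ee
  rw [Finset.mul_sum, Finset.sum_mul, map_sum, map_sum]
  refine Fintype.sum_equiv (Equiv.inv Γ) _ _ fun g => ?_
  rw [mul_smul_comm, smul_mul_assoc, map_smul, map_smul, Equiv.inv_apply, inv_inv, smul_eq_mul,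
    smul_eq_mul, hs z (γ g), mul_comm]

theorem T_bal (γ : Γ →* B) (lam : B →ₗ[F] F) {X : Type} [AddCommGroup X] [Module F X]
    (T : B →ₗ[F] B →ₗ[F] X) (hT : ∀ a b g, T (a * γ g) b = T a (γ g * b)) (a z b : B) :
    T (a * Ee F γ lam z) b = T a (Ee F γ lam z * b) := by
  unfold Ee
  rw [Finset.mul_sum, Finset.sum_mul, map_sum, map_sum, LinearMap.sum_apply]
  refine Finset.sum_congr rfl fun g _ => ?_
  rw [mul_smul_comm, smul_mul_assoc, map_smul, map_smul, LinearMap.smul_apply, hT]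

theorem cas : CasStmt := by
  intro F Γ B _ _ _ _ _ γ lam c' al m b b' hs hnd hc hal hd X _ _ T hT c
  have h2 : ∀ a : B, c' * Ee F γ lam a + ∑ k, al (b k) * Ee F γ lam (b' k * a) = a := by
    intro a
    have h1 : ∑ k, al (b k) * Ee F γ lam (b' k * a) = a - Ee F γ lam a * c' := by
      rw [← hal a]
      have h3 : ∀ k, al (b k) * Ee F γ lam (b' k * a) =
          ∑ h, lam (b' k * (a * γ h⁻¹)) • (al (b k) * γ h) := by
        intro k
        unfold Ee
        rw [Finset.mul_sum]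
        refine Finset.sum_congr rfl fun h _ => ?_
        rw [mul_smul_comm, hs (γ h⁻¹), mul_assoc]
      rw [Finset.sum_congr rfl fun k _ => h3 k, Finset.sum_comm]
      refine Finset.sum_congr rfl fun h _ => ?_
      rw [show al (a * γ h⁻¹) = al (∑ k, lam (b' k * (a * γ h⁻¹)) • b k) from
        congrArg al (hd _).symm, map_sum, Finset.sum_mul]
      refine Finset.sum_congr rfl fun k _ => ?_
      rw [map_smul, smul_mul_assoc]
    rw [h1, Ee_com γ lam c' hc.com]
    abel
  have h4 : ∀ z : B, Ee F γ lam (z * c') * 1 + ∑ k, Ee F γ lam (z * al (b k)) * b' k = z := by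
    intro z
    rw [← sub_eq_zero]
    refine hnd _ fun a => ?_
    rw [sub_mul, map_sub, sub_eq_zero, add_mul, map_add, Finset.sum_mul, map_sum]
    have e1 : lam (z * a) = lam (z * c' * Ee F γ lam a) +
        ∑ k, lam (z * al (b k) * Ee F γ lam (b' k * a)) := by
      conv_lhs => rw [← h2 a]
      rw [mul_add, map_add, Finset.mul_sum, map_sum, ← mul_assoc]
      congr 1
      refine Finset.sum_congr rfl fun k _ => ?_
      rw [mul_assoc]
    rw [e1, mul_one, lam_Ee γ lam hs]
    congr 1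
    refine Finset.sum_congr rfl fun k _ => ?_
    rw [lam_Ee γ lam hs, mul_assoc]
  rw [Fintype.sum_option, Fintype.sum_option]
  simp only [Option.elim]
  have h5 : ∀ a y : B, T a y = T c' (Ee F γ lam a * y) +
      ∑ k, T (al (b k)) (Ee F γ lam (b' k * a) * y) := by
    intro a y
    conv_lhs => rw [← h2 a]
    rw [map_add, LinearMap.add_apply, map_sum, LinearMap.sum_apply, T_bal γ lam T hT]
    congr 1
    refine Finset.sum_congr rfl fun k _ => ?_
    rw [T_bal γ lam T hT]
  have h6 : ∀ z : B, T c' (1 * z) = T c' (Ee F γ lam (z * c') * 1) +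
      ∑ k, T c' (Ee F γ lam (z * al (b k)) * b' k) := by
    intro z
    conv_lhs => rw [one_mul, ← h4 z]
    rw [map_add, map_sum]
  have h7 : ∀ (j : Fin m), T (al (b j)) (b' j * c) =
      T (al (b j)) (Ee F γ lam (b' j * (c * c')) * 1) +
      ∑ k, T (al (b j)) (Ee F γ lam (b' j * (c * al (b k))) * b' k) := by
    intro j
    conv_lhs => rw [← h4 (b' j * c)]
    rw [map_add, map_sum, mul_assoc]
    congr 1
    refine Finset.sum_congr rfl fun k _ => ?_
    rw [mul_assoc (b' j)]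
  rw [h5 (c * c') 1, Finset.sum_congr rfl fun k (_ : k ∈ Finset.univ) => h5 (c * al (b k)) (b' k),
    h6 c, Finset.sum_congr rfl fun j (_ : j ∈ Finset.univ) => h7 j, Finset.sum_add_distrib,
    Finset.sum_add_distrib, Finset.sum_comm]
  abel

end Pool.Agent.PFC.B5a.H53
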